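import Pool.Agent.Helper30.U.Defs2
import Pool.Agent.Helper30.SH.BackForth

/-!
# MP_506470_co : module U-D10, set-homogeneous and universal implies homogeneous
-/

namespace SetHom
namespace Un

variable {V : Type} {G : SimpleGraph V}

/-- Every subset of a finite set is the trace of a point outside. -/
theorem rado_of_univ (hs : SetHomogeneous G)
    (hu : ∀ (n : ℕ) (A : SimpleGraph (Fin n)), Nonempty (A ↪g G)) (U : Finset V) (t : Set V) :
    ∃ b, b ∉ U ∧ ∀ x ∈ U, (G.Adj b x ↔ x ∈ t) := by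
  classical
  let A : SimpleGraph (U : Set V) := G.induce (U : Set V)
  let R : ↥(U : Set V) → Equiv.Perm ↥(U : Set V) → Prop := fun x τ => (τ x).1 ∈ t
  obtain ⟨n, ⟨e0⟩⟩ := Finite.exists_equiv_fin ((U : Set V) ⊕ Equiv.Perm (U : Set V))
  obtain ⟨e⟩ := hu n ((AJ A R).comap e0.symm)
  let g : (U : Set V) ⊕ Equiv.Perm (U : Set V) → V := fun x => e (e0 x)
  have gadj : ∀ x y, G.Adj (g x) (g y) ↔ (AJ A R).Adj x y := by
    intro x y
    show G.Adj (e (e0 x)) (e (e0 y)) ↔ _
    rw [e.map_adj_iff]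
    simp [SimpleGraph.comap_adj]
  have ginj : Function.Injective g := fun x y h => e0.injective (e.injective h)
  let U2 : Finset V := Finset.univ.image (fun x : (U : Set V) => g (Sum.inl x))
  have hU2 : ∀ v, v ∈ U2 ↔ ∃ x : (U : Set V), g (Sum.inl x) = v := by
    intro v
    simp [U2]
  let F : ↥(U : Set V) → ↥(U2 : Set V) := fun x => ⟨g (Sum.inl x), (hU2 _).2 ⟨x, rfl⟩⟩
  have hF : Function.Bijective F := by
    constructor
    · intro x y h
      have := ginj (congrArg Subtype.val h)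
      exact Sum.inl.inj this
    · rintro ⟨v, hv⟩
      obtain ⟨x, hx⟩ := (hU2 v).1 hv
      exact ⟨x, Subtype.ext hx⟩
  obtain ⟨φ, hφ⟩ := hs U U2 ⟨⟨Equiv.ofBijective F hF, by
    intro x y
    show G.Adj (g (Sum.inl x)) (g (Sum.inl y)) ↔ _
    rw [gadj]
    exact AJ_ll x y⟩⟩
  have hs0 : ∀ x : (U : Set V), φ.symm (g (Sum.inl x)) ∈ (U : Set V) := by
    intro x
    have : g (Sum.inl x) ∈ φ '' (U : Set V) := by
      rw [hφ]
      exact (hU2 _).2 ⟨x, rfl⟩
    obtain ⟨y, hy, h⟩ := this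
    rw [← h]
    have : φ.symm (φ y) = y := φ.symm_apply_apply y
    rw [this]
    exact hy
  let s : ↥(U : Set V) → ↥(U : Set V) := fun x => ⟨φ.symm (g (Sum.inl x)), hs0 x⟩
  have hsinj : Function.Injective s := by
    intro x y h
    have := ginj (φ.symm.injective (congrArg Subtype.val h))
    exact Sum.inl.inj this
  let σ : Equiv.Perm (U : Set V) := Equiv.ofBijective s (Finite.injective_iff_bijective.1 hsinj)
  refine ⟨φ.symm (g (Sum.inr σ)), ?_, ?_⟩
  · intro h
    have h1 : φ (φ.symm (g (Sum.inr σ))) ∈ φ '' (U : Set V) := ⟨_, h, rfl⟩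
    have h2 : φ (φ.symm (g (Sum.inr σ))) = g (Sum.inr σ) := φ.apply_symm_apply _
    rw [h2, hφ] at h1
    obtain ⟨x, hx⟩ := (hU2 _).1 h1
    have := ginj hx
    simp at this
  · intro y hy
    obtain ⟨x, hx⟩ := σ.surjective ⟨y, hy⟩
    have hx' : φ.symm (g (Sum.inl x)) = y := congrArg Subtype.val hx
    rw [← hx', φ.symm.map_adj_iff, gadj, AJ_rl]
    exact Iff.rfl

/-- module U-D10: set-homogeneous and universal implies homogeneous. -/
theorem homogeneous_of_univ [Countable V] (hs : SetHomogeneous G)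
    (hu : ∀ (n : ℕ) (A : SimpleGraph (Fin n)), Nonempty (A ↪g G)) : Homogeneous G := by
  classical
  refine homogeneous_of_ope ?_
  intro U f hinj _ a _
  obtain ⟨b, hb, hb2⟩ := rado_of_univ hs hu (U.image f) {y | ∃ x ∈ U, f x = y ∧ G.Adj a x}
  refine ⟨b, fun x hx h => hb (h ▸ Finset.mem_image_of_mem f hx), fun x hx => ?_⟩
  rw [hb2 (f x) (Finset.mem_image_of_mem f hx)]
  constructor
  · rintro ⟨y, hy, hyx, h⟩
    rw [← hinj hy hx hyx]
    exact h
  · exact fun h => ⟨x, hx, rfl, h⟩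

end Un
end SetHom
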